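import Pool.Agent.Helper30.ML.Goals
import Pool.Agent.Helper94.KC.GoalsC

/-!
# Project KI (MP_bf413e_co): hubs do not percolate.  Statements of the packets, with proofs

Main statement `StmtTI`: triangulated closed surfaces in which all chains of hubs (vertices of degree
`≥ 7`, consecutive ones with a common neighbour) have diameter at most `ρ`; large edge-width; two flat
patches near points of a shortest nonbounding cycle, far from the hubs.  No condition on the genus,
on the number of hubs, or on the vertices of degree `≤ 5`.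

All proved facts of project KC may be used (EV: `Helper70/KC/EV`, CY: `Helper59`, CN2, MZ: `Helper28`,
AC: `Helper33`, DB: `Helper13`, IN: `Helper85`, DD: `Helper34`, AR: `Helper39`, BL, GH: `Helper83`,
L1: `Helper3`), or their statements as hypotheses.
-/

set_option autoImplicit false

namespace Pool.Agent.Helper30.KC

open scoped Classical
open Finset
open Pool.Agent.Helper94.KC
open Pool.Agent.Helper30.ML (Mac rs del StmtBR StmtMEY StmtD4 StmtSU)

/-- the graph of hubs: two hubs are joined if they have a common neighbour -/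
def HG {V : Type} [Fintype V] (T : Finset (Finset V)) : SimpleGraph V where
  Adj a b := a ≠ b ∧ 7 ≤ dg T a ∧ 7 ≤ dg T b ∧ ∃ u, (sk T).Adj a u ∧ (sk T).Adj b u
  symm := ⟨fun _ _ h => ⟨h.1.symm, h.2.2.1, h.2.1, h.2.2.2.imp fun _ hu => ⟨hu.2, hu.1⟩⟩⟩
  loopless := ⟨fun _ h => h.1 rfl⟩

/-- all chains of hubs have diameter at most `ρ` -/
def HD {V : Type} [Fintype V] (T : Finset (Finset V)) (ρ : ℕ) : Prop :=
  ∀ a b, (HG T).Reachable a b → (sk T).dist a b ≤ ρ

/-- a connected stuck set with connected complement -/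
structure Stk {V : Type} [Fintype V] (T : Finset (Finset V)) (W : Finset V) : Prop where
  ne : W.Nonempty
  cw : ConW T W
  cu : ConW T (univ \ W)
  two : ∃ u u', u ∉ W ∧ u' ∉ W ∧ (sk T).Adj u u'
  stk : ∀ x ∈ W, (∃ u, u ∉ W ∧ (sk T).Adj x u) → 5 ≤ dR (sk T) W x

/-- the vertices adjacent to the cluster of the hub `h` -/
noncomputable def NK {V : Type} [Fintype V] (T : Finset (Finset V)) (h : V) : Finset V :=
  univ.filter (fun u => ∃ h', (HG T).Reachable h h' ∧ 7 ≤ dg T h' ∧ (sk T).Adj u h')

/-- the triangles with two vertices in `W` and the third near the cluster of `h` -/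
noncomputable def Db {V : Type} [Fintype V] (T : Finset (Finset V)) (W : Finset V) (h : V) :
    Finset (Finset V) := T.filter (fun t => (t ∩ W).card = 2 ∧ ∃ u ∈ t, u ∉ W ∧ u ∈ NK T h)

/-- the triangles with one vertex in `W` and another one, outside `W`, near the cluster of `h` -/
noncomputable def Da {V : Type} [Fintype V] (T : Finset (Finset V)) (W : Finset V) (h : V) :
    Finset (Finset V) := T.filter (fun t => (t ∩ W).card = 1 ∧ ∃ u ∈ t, u ∉ W ∧ u ∈ NK T h)

/-- the hub chain: mixed edges in the boundary of `Db` -/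
noncomputable def mK {V : Type} [Fintype V] (T : Finset (Finset V)) (W : Finset V) (h : V) :
    Finset (Finset V) := (bd T (Db T W h)).filter (fun e => ¬ e ⊆ W)

/-- the part inside `W` of the boundary of `Db` -/
noncomputable def dW {V : Type} [Fintype V] (T : Finset (Finset V)) (W : Finset V) (h : V) :
    Finset (Finset V) := (bd T (Db T W h)).filter (fun e => e ⊆ W)

/-- a disc whose boundary is a short cycle near `h` -/
def Near {V : Type} [Fintype V] (T : Finset (Finset V)) (h : V) (k : ℕ)
    (D : Finset (Finset V)) : Prop :=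
  ∃ (x : V) (w : (sk T).Walk x x), w.IsCycle ∧ w.length ≤ 2 * k + 1 ∧
    (∀ v ∈ w.support, (sk T).dist h v ≤ k) ∧ Disc T D (wed w)

/-- PACKET BB (even sets in a ball; may assume StmtDD, StmtEV).
Proof.  For every vertex `v` with `dist h v ≤ k` choose a shortest path from `h` to `v` (`sk T` is
connected) and let `y v` be the set of its edges: at most `k` edges, all its vertices are at distance
at most `k` from `h`; every vertex different from `h, v` is in an even number of edges of `y v`, and
(if `v ≠ h`) `h` and `v` are in an odd number.  For `e = {a, b} ∈ z` let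
`c e = symmDiff (symmDiff (y a) (y b)) {e}`: even, at most `2 k + 1` edges, all vertices at distance at
most `k`.  DD gives a list `L e` of discs with sum of boundaries `c e`, whose boundary cycles `w'`
have `wed w' ⊆ c e`, so `w'.length = #(wed w') ≤ 2 k + 1`.  Let `L` be the concatenation of the `L e`,
`e ∈ z`.  The boundary of the sum of `L` is the sum of the `c e`; every `y v` occurs in an even
number of them (`z` is even), so it is `z`.  (Induction over a list or `Finset` of edges; `bd` is
additive, EV (1).)  `c e ⊆ ed T`. -/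
def StmtBB : Prop := ∀ (V : Type) [Fintype V] (T : Finset (Finset V)), Surf T →
  ∀ (h : V) (k : ℕ), EW T (2 * k + 2) → ∀ z ⊆ ed T, Even2 z →
  (∀ e ∈ z, ∀ v ∈ e, (sk T).dist h v ≤ k) →
  ∃ L : List (Finset (Finset V)), bd T (L.foldr symmDiff ∅) = z ∧ ∀ D ∈ L, Near T h k D

/-- PACKET UH (hubs at the wall; may assume StmtGH, StmtL1).
Proof.  (1) `x` has the neighbour `u ∉ W`, so `5 ≤ dR (sk T) W x` (`stk`); GH for `R = W`.  (2) `u` has a
neighbour outside `W`: `univ \ W` is connected and has at least two elements (`cu`, `two`).  `lk T u`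
is connected, it contains `x ∈ W` and a vertex outside `W`, so there are adjacent vertices
`h ∈ W`, `u' ∉ W` of it; `(lk T h).Adj u u'`, so `h` is a hub by (1).  (3) `u ∈ NK T h`: there is a hub `h₁`,
reachable from `h`, adjacent to `u`; `h₁ = h'` or `(HG T).Adj h₁ h'` (common neighbour `u`).
(4) Let `u ≠ u'`; `t = {x, u, u'}` with `x ∈ W`, `(lk T x).Adj u u'`, so `x` is a hub by (1); by (3) it is
reachable from `h`, and it is adjacent to `u'`. -/
def StmtUH : Prop := ∀ (V : Type) [Fintype V] (T : Finset (Finset V)) (W : Finset V), Surf T →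
  Stk T W →
  (∀ x ∈ W, ∀ u u', u ∉ W → u' ∉ W → (lk T x).Adj u u' → 7 ≤ dg T x) ∧
  (∀ x ∈ W, ∀ u, u ∉ W → (sk T).Adj x u → ∃ h ∈ W, 7 ≤ dg T h ∧ (sk T).Adj u h) ∧
  (∀ h u h', u ∈ NK T h → 7 ≤ dg T h' → (sk T).Adj u h' → (HG T).Reachable h h') ∧
  (∀ h, ∀ t ∈ T, (t ∩ W).Nonempty → ∀ u ∈ t, ∀ u' ∈ t, u ∉ W → u' ∉ W → u ∈ NK T h →
    u' ∈ NK T h)

/-- PACKET MK (the hub chain; may assume StmtUH, StmtEV).
Proof.  Call an edge `{x, u}`, `x ∈ W`, `u ∉ W`, mixed, and a triangle mixed if it has one or two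
vertices in `W`.  A mixed edge is in exactly two triangles of `T`, both are mixed; if `u ∈ NK T h` both
are in `Da ∪ Db` (for a triangle `{x, u, u'}` with `u' ∉ W` use UH (4)), and if `u ∉ NK T h` none is
(UH (4) again).  So (A): a mixed edge is in an odd number of triangles of `Db` iff it is in an odd
number of triangles of `Da`, and then it is `{x, u}`, `u ∈ NK T h`, and it is in exactly one triangle of
`Da`, which is `{x, u, u'}`, so `x` is a hub (UH (1)), and reachable from `h` (UH (3)).  (1) is this.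
(2) The edges of the triangles of `Db` are inside `W` or mixed; those of `Da` are inside `univ \ W` or
mixed.  `bd T (Db)` is the disjoint union of `dW` and `mK`.  By (A) the mixed edges of `bd T (Da)` are
those of `mK`.  (3) `mK` is even: at `u ∉ W` the edges of `mK` are the edges of `bd T (Db)` at `u`, an even
number; at `x ∈ W` the edges of `mK` are the edges of `bd T (Da)` at `x`, an even number.  So `dW`,
the sum of `bd T (Db)` and `mK`, is even too. -/
def StmtMK : Prop := ∀ (V : Type) [Fintype V] (T : Finset (Finset V)) (W : Finset V) (h : V),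
  Surf T → Stk T W → 7 ≤ dg T h →
  (∀ e ∈ mK T W h, ∃ x u, e = {x, u} ∧ x ∈ W ∧ u ∉ W ∧ 7 ≤ dg T x ∧ (sk T).Adj x u ∧
    (HG T).Reachable h x) ∧
  (bd T (Db T W h) = symmDiff (dW T W h) (mK T W h) ∧
    ∀ e ∈ symmDiff (bd T (Da T W h)) (mK T W h), ∀ v ∈ e, v ∉ W) ∧
  (Even2 (mK T W h) ∧ Even2 (dW T W h) ∧ dW T W h ⊆ edW T W ∧ mK T W h ⊆ ed T)

/-- PACKET SC (only one cluster; may assume StmtBB, StmtUH, StmtMK, StmtIN, StmtEV).
Proof.  The vertices of the edges of `mK` are at distance at most `ρ + 1` from `h` (MK (1), `HD`), so by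
BB (`k = ρ + 1`) `mK T W h = bd T S` for some `S ⊆ T`, and `dW T W h = bd T (symmDiff (Db T W h) S)` bounds;
by IN there is `D' ⊆ trW T W` with `bd T D' = dW T W h`.  Let `F = D' ∪ Da T W h ∪ Db T W h` (disjoint, so
the symmetric difference).  `bd T F = dW + bd (Da) + dW + mK = bd (Da) + mK`, which has no edge with a
vertex in `W` (MK (2)).  So for `x ∈ W` the triangles at `x` are all in `F` or none of them is (two
triangles at `x` which share an edge `{x, v}` are both in `F` or both not; the link is connected); two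
adjacent vertices of `W` have a common triangle, and `W` is connected: either all triangles which
meet `W` are in `F`, or none.  The triangle at the given edge `{x, u}` is in `Da ∪ Db` (UH (4)).  So all
are: a mixed triangle is not in `D'`, so it is in `Da ∪ Db`; a triangle inside `W` is in `D'`, so
`D' = trW T W`. -/
def StmtSC : Prop := ∀ (V : Type) [Fintype V] (T : Finset (Finset V)) (W : Finset V) (ρ : ℕ)
  (h x u : V), Surf T → Stk T W → HD T ρ → EW T (2 * ρ + 4) → 7 ≤ dg T h → x ∈ W → u ∉ W →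
  (sk T).Adj x u → u ∈ NK T h →
  (∀ t ∈ T, (t ∩ W).Nonempty → ∀ v ∈ t, v ∉ W → v ∈ NK T h) ∧ bd T (trW T W) = dW T W h

/-- PACKET AX (a cycle crosses a disc; may assume StmtEV, StmtDB, StmtAC; compare AR in GoalsC).
Proof.  `x` is on no edge of `wed w'`, and a triangle at `x` is in `D`, so all triangles at `x` are in
`D` (DB (2)); call such vertices interior.  If all vertices of `w` were interior, all edges of `w` would
be in `ed D` and `wed w` would bound (DB (1)).  If a vertex is interior and its neighbour `v` on `w` is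
not, then `v` is on an edge of `wed w'` (the triangles at the edge are in `D`, so otherwise `v` is
interior).  So going from `x` along `w` in both directions until we meet the support of `w'` for the
first time we get `p` and `q`; all the vertices between are interior.  If `p = q` all edges of `w` are
in `ed D`, and `wed w` would bound.  So `p ≠ q`; let `A` be the arc of `w` from `p` to `q` through `x` (AC),
`wed A ⊆ ed D`, it contains all edges of `w` at `x`; let `B` be an arc of `w'` from `p` to `q`.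
`symmDiff (wed A) (wed B)` is even, contained in `ed D` (`wed w' = bd T D ⊆ ed D`), so it bounds. -/
def StmtAX : Prop := ∀ (V : Type) [Fintype V] (T : Finset (Finset V)), Surf T →
  ∀ (x₀ : V) (w : (sk T).Walk x₀ x₀), w.IsCycle → ¬ Bounds T (wed w) → ∀ x ∈ w.support,
  ∀ (D : Finset (Finset V)) (y : V) (w' : (sk T).Walk y y), w'.IsCycle → Disc T D (wed w') →
  (∃ t ∈ D, x ∈ t) → x ∉ w'.support →
  ∃ A ⊆ wed w, ∃ B ⊆ wed w', Even2 (symmDiff A B) ∧ Bounds T (symmDiff A B) ∧
    ∀ e ∈ wed w, x ∈ e → e ∈ A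

/-- PACKET CA (case A; may assume StmtBB, StmtUH, StmtAX, StmtCN2, StmtEV).
Proof.  Induction on the number `N(z)` of the edges of `z` with a vertex at distance `> ρ + 2` from
`h`.  Suppose `z` does not bound.  CN2: a cycle `w` with `wed w ⊆ z` which does not bound.  If all its
vertices are at distance `≤ ρ + 2`, BB (`k = ρ + 2`) says that it bounds.  So it has a vertex `v` with
`ρ + 2 < dist h v`; `v ∈ W`.  `v` has no neighbour `u ∉ W`: by the hypothesis `HU` (the edge is in a
triangle) `u ∈ NK T h`, so `u` is adjacent to a hub `h'` reachable from `h`, `dist h h' ≤ ρ`,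
`dist h v ≤ ρ + 2`.  So a triangle `t` at `v` is in `trW T W`, hence in some `D ∈ L`, and `v` is not on its
boundary cycle `w'` (distance `≤ ρ + 1`).  AX gives `A`, `B`.  `z' = symmDiff (wed w) (symmDiff A B)` is
even and does not bound; its edges are edges of `w` not in `A`, or edges of `w'` (with both vertices
at distance `≤ ρ + 1`).  So `z'` satisfies the hypothesis, and `N(z') < N(z)`, because the edges of `w`
at `v` (there are some) are counted in `N(z)` and are in `A`, so not in `z'` (they are not in `B`).  By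
induction `z'` bounds, contradiction. -/
def StmtCA : Prop := ∀ (V : Type) [Fintype V] (T : Finset (Finset V)) (W : Finset V) (ρ : ℕ) (h : V)
  (L : List (Finset (Finset V))), Surf T → HD T ρ → EW T (2 * ρ + 6) → 7 ≤ dg T h →
  (∀ t ∈ T, (t ∩ W).Nonempty → ∀ v ∈ t, v ∉ W → v ∈ NK T h) →
  (∀ D ∈ L, Near T h (ρ + 1) D) → (∀ t ∈ trW T W, ∃ D ∈ L, t ∈ D) →
  ∀ z ⊆ ed T, Even2 z → (∀ e ∈ z, ∀ v ∈ e, ρ + 2 < (sk T).dist h v → v ∈ W) → Bounds T z

/-- PACKET CB (case B; may assume StmtAR).
Proof.  Otherwise let `w'` be the boundary cycle of `D`; `x ∉ w'.support` by the distance from `h`; AR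
gives `p` on `w'` with `2 dist x p ≤ w'.length ≤ 2 ρ + 3`, so `dist x p ≤ ρ + 1` and
`dist x h ≤ 2 ρ + 2`. -/
def StmtCB : Prop := ∀ (V : Type) [Fintype V] (T : Finset (Finset V)) (ρ : ℕ) (h : V), Surf T →
  ∀ (x₀ : V) (w : (sk T).Walk x₀ x₀), Shortest T w → ∀ x ∈ w.support,
  2 * ρ + 4 < (sk T).dist x h → ∀ D, Near T h (ρ + 1) D → ∀ t ∈ D, x ∉ t

/-- PACKET MW (cycles in a connected stuck set bound; may assume StmtBB, StmtUH, StmtMK, StmtSC,
StmtCA, StmtCB, StmtEV).
Proof.  `W` and its complement are nonempty and `sk T` is connected, so there are `x' ∈ W`, `u ∉ W`,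
adjacent; UH (2) gives a hub `h ∈ W` adjacent to `u`, so `u ∈ NK T h`; SC applies.  BB (`k = ρ + 1`) for
`mK T W h` gives `L` with sum `S`, `bd T S = mK T W h`.  `bd T (trW T W) = dW = bd (Db) + bd S`, so the sum
of `trW T W`, `Db T W h` and `S` is `∅` or `T` (EV (6); `Near` discs are contained in `T`).  Case `T`: let
`t` be a triangle at `x` (`cover`); its vertices are not in `W`, so it is not in `trW T W` and not in
`Db`, so it is in `S`, so in some `D ∈ L`: contradiction to CB.  Case `∅`: a triangle of `trW T W` is not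
in `Db`, so it is in `S`, so in some `D ∈ L`; CA for `z`. -/
def StmtMW : Prop := ∀ (V : Type) [Fintype V] (T : Finset (Finset V)) (W : Finset V) (ρ : ℕ),
  Surf T → Stk T W → HD T ρ → EW T (2 * ρ + 6) →
  ∀ (x₀ : V) (w : (sk T).Walk x₀ x₀), Shortest T w → ∀ x ∈ w.support,
  (∀ h, 7 ≤ dg T h → 2 * ρ + 4 < (sk T).dist x h) → (∀ y, (sk T).dist x y ≤ 1 → y ∉ W) →
  ∀ z ⊆ edW T W, Even2 z → Bounds T z

/-- PACKET FW (all components; may assume StmtMW, StmtCN2, StmtIN, StmtEV).
Proof.  By IN it is enough that `z` bounds.  Otherwise CN2 gives a cycle `w₁`, `wed w₁ ⊆ z`, which does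
not bound; all its vertices are in `W`, in one component `W₁` (the set of the vertices reachable in
`gr (edW T W)` from the first vertex of `w₁`).  `Stk T W₁`: `W₁` is connected; the complement is
connected: `univ \ W` is, and every vertex of `W \ W₁` is connected inside `W \ W₁` to a vertex which
is adjacent to a vertex of `univ \ W` (a path of `sk T` to `univ \ W`, up to the first vertex outside
`W`, has no vertex in `W₁`); two adjacent vertices outside `W` are outside `W₁`; a vertex `y ∈ W₁` with a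
neighbour `u ∉ W₁` has `u ∉ W`, and all its neighbours in `W` are in `W₁`.  MW for `W₁` and `wed w₁`:
contradiction. -/
def StmtFW : Prop := ∀ (V : Type) [Fintype V] (T : Finset (Finset V)) (W : Finset V) (ρ : ℕ),
  Surf T → HD T ρ → EW T (2 * ρ + 6) → ConW T (univ \ W) →
  (∃ u u', u ∉ W ∧ u' ∉ W ∧ (sk T).Adj u u') →
  (∀ x ∈ W, (∃ u, u ∉ W ∧ (sk T).Adj x u) → 5 ≤ dR (sk T) W x) →
  ∀ (x₀ : V) (w : (sk T).Walk x₀ x₀), Shortest T w → ∀ x ∈ w.support,
  (∀ h, 7 ≤ dg T h → 2 * ρ + 4 < (sk T).dist x h) → (∀ y, (sk T).dist x y ≤ 1 → y ∉ W) →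
  ∀ z ⊆ edW T W, Even2 z → ∃ D ⊆ trW T W, bd T D = z

/-- PACKET BM (deletion in a ball without hubs, boundary form; may assume StmtGH).
Proof.  As BL in GoalsC (`Helper83/KC/BL`).  Claim: if `v ∉ W`, `dist x v ≤ k`, and some neighbour `u` of
`v` is `∉ W`, then all neighbours of `v` are `∉ W`: if `(lk T v).Adj u u'` and `u' ∈ W`, then `u'` has the
neighbour `v ∉ W`, so `5 ≤ dR (sk T) W u'`, and by GH `u'` is a hub, at distance `≤ k + 1` from `x`,
contradiction; `lk T v` is connected.  Induction on the distance from `x`. -/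
def StmtBM : Prop := ∀ (V : Type) [Fintype V] (T : Finset (Finset V)), Surf T →
  ∀ (W : Finset V) (x u : V) (k : ℕ),
  (∀ y ∈ W, (∃ v, v ∉ W ∧ (sk T).Adj y v) → 5 ≤ dR (sk T) W y) → x ∉ W → u ∉ W →
  (sk T).Adj x u → (∀ h, 7 ≤ dg T h → k + 1 < (sk T).dist x h) →
  ∀ y, (sk T).dist x y ≤ k + 1 → y ∉ W

/-- PACKET DW (the undeleted part; may assume StmtD4 of ML).
Proof.  Let `R` be the union of all sets `R' ⊆ univ \ B` with `∀ x ∈ R', 5 ≤ dR G R' x`; it has the same
property, and it is the largest one.  (1) `AllEq (rs G R) → AllEq (rs G (univ \ B))`: for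
`R ⊆ S ⊆ univ \ B` we show `AllEq (rs G S)` by induction on the number of elements of `S \ R`: if `S ≠ R`
then some `x ∈ S` has `dR G S x ≤ 4` (`R` is the largest), `x ∉ R` (as `dR G R x ≤ dR G S x`),
`del (rs G S) x = rs G (S.erase x)`, and D4.  (2) Let `U` be the set of the vertices which are reachable
from the connected set `B` in the graph `rs G (univ \ R)`, `W = univ \ U`.  `R ⊆ W`, `W` is disjoint from
`B`, `U` is connected.  A vertex `x ∈ W` with a neighbour `u ∈ U` is in `R` (otherwise it would be in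
`U`), so `5 ≤ dR G R x ≤ dR G W x`. -/
def StmtDW : Prop := ∀ (V : Type) [Fintype V] (T : Finset (Finset V)), Surf T →
  ∀ B : Finset V, B.Nonempty → ConW T B → ∃ R W : Finset V, R ⊆ W ∧ Disjoint W B ∧
    (AllEq (rs (sk T) (R : Set V)) → AllEq (rs (sk T) ((univ \ B : Finset V) : Set V))) ∧
    ConW T (univ \ W) ∧
    (∀ x ∈ W, (∃ u, u ∉ W ∧ (sk T).Adj x u) → 5 ≤ dR (sk T) W x)

/-- PACKET DP (the complement of a patch; may assume StmtDW, StmtBM, StmtFW, and StmtBR, StmtSU,
StmtMEY of ML).
Proof.  `B = core i` is connected (the ball of radius 5 of the lattice is connected, lattice edges are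
mapped to edges by `nb`; compare DG, `Helper12/KC/DG`).  DW gives `R, W`.  `i (0, 0)` and `i (1, 0)` are
adjacent and not in `W`; BM (`k = l`) gives: no vertex at distance `≤ l + 1` from `i (0, 0)` is in `W`; in
particular no vertex at distance `≤ 1` from `x`.  `dist x h > 2 ρ + 4` for all hubs `h`.  FW, then BR:
`Mac (rs (sk T) W)`, so `Mac (rs (sk T) R)` by SU (`R ⊆ W`), `AllEq (rs (sk T) R)` by MEY, and
`AllEq (rs (sk T) (univ \ B))` by DW. -/
def StmtDP : Prop := ∀ (V : Type) [Fintype V] (T : Finset (Finset V)) (ρ l : ℕ), Surf T → HD T ρ →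
  EW T (2 * ρ + 6) → ∀ (x₀ : V) (w : (sk T).Walk x₀ x₀), Shortest T w → ∀ x ∈ w.support,
  ∀ i : ℤ × ℤ → V, Patch (sk T) i → (sk T).dist (i (0, 0)) x ≤ l →
  (∀ h, 7 ≤ dg T h → l + 2 * ρ + 4 < (sk T).dist (i (0, 0)) h) →
  AllEq (rs (sk T) ((univ \ core i : Finset V) : Set V))

/-- Theorem A' (helper94): a flat patch is a reducible configuration. -/
def StmtTAP : Prop := ∀ (V : Type) [Fintype V] (G : SimpleGraph V) (i₁ i₂ : ℤ × ℤ → V),
  Patch G i₁ → Patch G i₂ → (∀ p q, hn p ≤ 6 → hn q ≤ 6 → i₁ p ≠ i₂ q) →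
  AllEq (rs G ((univ \ core i₁ : Finset V) : Set V)) →
  AllEq (rs G ((univ \ core i₂ : Finset V) : Set V)) → AllEq G

/-- THEOREM I / IIb (hubs do not percolate; from StmtTAP and StmtDP). -/
def StmtTI : Prop := ∀ (V : Type) [Fintype V] (T : Finset (Finset V)) (ρ l : ℕ), Surf T → HD T ρ →
  EW T (2 * ρ + 6) → ∀ (x₀ : V) (w : (sk T).Walk x₀ x₀), Shortest T w →
  ∀ (x₁ x₂ : V) (i₁ i₂ : ℤ × ℤ → V), x₁ ∈ w.support → x₂ ∈ w.support →
  Patch (sk T) i₁ → Patch (sk T) i₂ → (∀ p q, hn p ≤ 6 → hn q ≤ 6 → i₁ p ≠ i₂ q) →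
  (sk T).dist (i₁ (0, 0)) x₁ ≤ l → (sk T).dist (i₂ (0, 0)) x₂ ≤ l →
  (∀ h, 7 ≤ dg T h → l + 2 * ρ + 4 < (sk T).dist (i₁ (0, 0)) h ∧
    l + 2 * ρ + 4 < (sk T).dist (i₂ (0, 0)) h) → AllEq (sk T)

theorem ti (DP : StmtDP) (TAP : StmtTAP) : StmtTI := by
  intro V _ T ρ l hT hD hE x₀ w hw x₁ x₂ i₁ i₂ h1 h2 p1 p2 hd d1 d2 hh
  exact TAP V (sk T) i₁ i₂ p1 p2 hd
    (DP V T ρ l hT hD hE x₀ w hw x₁ h1 i₁ p1 d1 (fun h h7 => (hh h h7).1))
    (DP V T ρ l hT hD hE x₀ w hw x₂ h2 i₂ p2 d2 (fun h h7 => (hh h h7).2))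

end Pool.Agent.Helper30.KC
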