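import Pool.Agent.Helper30.ML.Fin
import Pool.Agent.Helper30.KC.GoalsI
import Pool.Agent.Helper14.KI.CB
import Pool.Agent.Helper16.KI.CA
import Pool.Agent.Helper24.KI.AX
import Pool.Agent.Helper28.KI.BM
import Pool.Agent.Helper29.KI.FW
import Pool.Agent.Helper59.KI.MW
import Pool.Agent.Helper60.KI.BB
import Pool.Agent.Helper62.KI.SC
import Pool.Agent.Helper77.KI.DP
import Pool.Agent.Helper92.KI.DW
import Pool.Agent.Helper92.KI.UH
import Pool.Agent.Helper98.KI.MK
import Pool.Agent.Helper70.KC.EV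
import Pool.Agent.Helper59.KC.CY
import Pool.Agent.Helper28.KC.CN2
import Pool.Agent.Helper33.KC.AC
import Pool.Agent.Helper13.KC.DB
import Pool.Agent.Helper85.KC.IN
import Pool.Agent.Helper39.KC.AR
import Pool.Agent.Helper83.KC.GH
import Pool.Agent.Helper36.KC.RK
import Pool.Agent.Helper73.KC.SH

/-!
# Project KI: assembly
-/

set_option autoImplicit false

namespace Pool.Agent.Helper30.KC

open Pool.Agent.Helper94.KC

theorem ev : StmtEV := Pool.Agent.Helper70.KC.ev
theorem cy : StmtCY := Pool.Agent.Helper59.KC.cy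
theorem cn2 : StmtCN2 := Pool.Agent.Helper28.KC.cn2 ev cy
theorem ac : StmtAC := Pool.Agent.Helper33.KC.ac
theorem rk : StmtRK := Pool.Agent.Helper36.KC.rk
theorem db : StmtDB := Pool.Agent.Helper13.KC.db ev rk
theorem inn : StmtIN := Pool.Agent.Helper85.KC.inn ev
theorem sh : StmtSH := Pool.Agent.Helper73.KC.sh ev
theorem ar : StmtAR := Pool.Agent.Helper39.KC.ar ev db ac sh
theorem gh : StmtGH := Pool.Agent.Helper83.KC.gh
theorem bb : StmtBB := Pool.Agent.Helper60.KI.pBB
theorem uh : StmtUH := Pool.Agent.Helper92.KI.pUH gh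
theorem mk : StmtMK := Pool.Agent.Helper98.KI.pMK uh ev
theorem sc : StmtSC := Pool.Agent.Helper62.KI.pSC bb uh mk inn ev
theorem ax : StmtAX := Pool.Agent.Helper24.KI.pAX ev db ac
theorem ca : StmtCA := Pool.Agent.Helper16.KI.pCA bb ax cn2 ev
theorem cb : StmtCB := Pool.Agent.Helper14.KI.pCB ar
theorem mw : StmtMW := Pool.Agent.Helper59.KI.pMW bb uh mk sc ca cb
theorem fw : StmtFW := Pool.Agent.Helper29.KI.pFW mw cn2 inn ev
theorem bm : StmtBM := Pool.Agent.Helper28.KI.pBM gh
theorem dw : StmtDW := Pool.Agent.Helper92.KI.pDW Pool.Agent.Helper30.ML.d4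
theorem dp : StmtDP := Pool.Agent.Helper77.KI.pDP dw bm fw Pool.Agent.Helper30.ML.br
  Pool.Agent.Helper30.ML.su Pool.Agent.Helper30.ML.meyniel

/-- hubs do not percolate, from theorem A' -/
theorem ti_of_tap (TAP : StmtTAP) : StmtTI := ti dp TAP

end Pool.Agent.Helper30.KC
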