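import Pool.Agent.Helper30.KC.GoalsI

/-!
# Project KT (MP_bf413e_co): boundedly many vertices of degree at most 5.  Statements with proofs

Main statement `StmtTT`: for all `N`, `t` there is `c` such that all 5-colourings of a triangulation of
a closed surface with Euler characteristic `≥ -N`, total deficiency `∑ (6 - d(v))⁺ ≤ t` and edge-width
at least `c` are Kempe equivalent.  It follows from `StmtTI`; the new point is the existence of flat
patches.
-/

set_option autoImplicit false

namespace Pool.Agent.Helper30.KC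

open scoped Classical
open Finset
open Pool.Agent.Helper94.KC
open Pool.Agent.Helper30.ML (Mac rs del StmtBR StmtMEY StmtD4 StmtSU)

/-- PACKET GB2 (Gauss-Bonnet for discs, arbitrary degrees; may assume StmtEV, StmtDB, StmtL1; adapt
`Helper64/KC/GB`).
Proof.  Let `D` be the disc, `w` the boundary cycle, `ℓ = w.length = #(wed w)`, `n_i` the number of the
vertices of `vs D` not on `w` (all triangles at such a vertex are in `D`, DB (2), and their number is
`dg`, L1).  Every vertex of `w` is in `vs D`.  `3 #D = 2 #(ed D) - ℓ` (edges of `ed D` are in one triangle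
of `D` if they are in `wed w`, otherwise in two), `n_i + ℓ - #(ed D) + #D = 1`, so `#D = 2 n_i + ℓ - 2`.
Counting the pairs (vertex, triangle of `D`): `3 #D = ∑_{x ∈ vs D} #{t ∈ D : x ∈ t}`.  So
`∑_{x ∈ w} (3 - #{t ∈ D : x ∈ t}) + ∑_{interior} (6 - dg T x) = 3 ℓ + 6 n_i - 3 #D = 6`. -/
def StmtGB2 : Prop := ∀ (V : Type) [Fintype V] (T : Finset (Finset V)), Surf T →
  ∀ (x : V) (w : (sk T).Walk x x), w.IsCycle → ∀ D, Disc T D (wed w) →
  (∀ v ∈ w.support, ∃ t ∈ D, v ∈ t) ∧
  (∑ v ∈ w.support.toFinset, ((3 : ℤ) - (D.filter (fun t => v ∈ t)).card)) +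
    ∑ v ∈ (vs D).filter (fun v => v ∉ w.support), ((6 : ℤ) - dg T v) = 6

/-- PACKET IJ2 (the development is injective, or there is a balloon; may assume StmtGB2, StmtST,
StmtAC, StmtEV; adapt the proof of IJ in GoalsC, which is the case of minimum degree 6).
Proof.  If `f` is injective on the ball of radius 6, then `Patch (sk T) f` (`Dev.nb`).  Otherwise call
`(p, q)`, `p ≠ q`, `hn p, hn q ≤ 6`, bad if `f p = f q`, and take a bad pair with `ℓ = hn (q - p)` minimal.
There are directions `u = d j`, `u' = d (j + 1)` and `a, b ≥ 0`, `a + b = ℓ`, `q = p + a u + b u'`.  The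
lattice path `p, p + u, .., p + a u, p + a u + u', .., q` is in the ball of radius 6 (a convex set); any
two points of it, except `p, q`, have a smaller distance, so `f` is injective on the path without `q`,
and the image is a closed walk of length `ℓ`; `ℓ ≥ 3` (`ℓ = 1`: `f p ≠ f q` are adjacent; `ℓ = 2`:
`Dev.inj` at the middle point).  It is a cycle `w` of length `≤ 12`, so it bounds a disc `D`; its
vertices are at distance at most 6 from `f 0`.  At the vertices of `w` different from `f p` and
`f (p + a u)` exactly 3 triangles are in `D` (ST: straight); at `f (p + a u)` (if `0 < a < ℓ`) at least 2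
(ST), at `f p` at least 1.  So the first sum in GB2 is at most `1 + 2 = 3`, the second sum is at least 3,
and there is `v ∈ vs D` not on `w` with `dg T v ≤ 5`. -/
def StmtIJ2 : Prop := ∀ (V : Type) [Fintype V] (T : Finset (Finset V)) (f : ℤ × ℤ → V), Surf T →
  EW T 13 → Dev T 6 f → Patch (sk T) f ∨
    ∃ (y : V) (w : (sk T).Walk y y) (D : Finset (Finset V)) (v : V), w.IsCycle ∧ w.length ≤ 12 ∧
      (∀ z ∈ w.support, (sk T).dist (f (0, 0)) z ≤ 6) ∧ Disc T D (wed w) ∧ v ∈ vs D ∧
      v ∉ w.support ∧ dg T v ≤ 5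

/-- PACKET DS (balloons at far away points of the shortest cycle are disjoint; may assume StmtAR,
StmtDB, StmtEV).
Proof.  Let `C₁, C₂` be the supports of `w₁, w₂`.  A vertex `z ∉ C₁` which is in a triangle of `D₁` is
interior: all triangles at `z` are in `D₁` (DB (2)); if `z'` is adjacent to the interior vertex `z` and
not in `C₁`, then `z'` is interior.  (a) No vertex `z` of `C₂` is in `vs D₁`: otherwise it is interior
(`dist x z > 6`), and so are all vertices of a shortest path (length `≤ 6`) from `z` to `x'` (they are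
at distance `≤ 12` from `x'`, so `> 6` from `x`, not in `C₁`); so `x'` is in a triangle of `D₁` and not on
`w₁`, and AR gives `p ∈ C₁` with `2 dist x' p ≤ 12`, so `dist x x' ≤ 12`, contradiction.  (b) In the same
way no vertex of `C₁` is in `vs D₂`.  (c) Let `E = D₁ ∩ D₂`.  If `e ∈ bd T E`, exactly one of its two
triangles `t, t'` is in `E`, say `t`; `t' ∉ D₁` or `t' ∉ D₂`; if `t' ∉ D₁` then `e ∈ bd T D₁ = wed w₁`, so the
vertices of `e` are in `C₁` and in `t ∈ D₂`, contradiction to (b); the same for `D₂` with (a).  So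
`bd T E = ∅`, `E = ∅` or `E = T` (EV (6)); `E = T` would give `D₁ = T`, `wed w₁ = bd T T = ∅`.  So
`D₁ ∩ D₂ = ∅`.  (d) If `v` is in `vs D₁` and in `vs D₂`, not on `w₁`, not on `w₂`, all triangles at `v` are
in `D₁` and in `D₂` (and there is one), contradiction. -/
def StmtDS : Prop := ∀ (V : Type) [Fintype V] (T : Finset (Finset V)), Surf T →
  ∀ (x₀ : V) (w : (sk T).Walk x₀ x₀), Shortest T w → ∀ x ∈ w.support, ∀ x' ∈ w.support,
  40 < (sk T).dist x x' →
  ∀ (y₁ y₂ : V) (w₁ : (sk T).Walk y₁ y₁) (w₂ : (sk T).Walk y₂ y₂) (D₁ D₂ : Finset (Finset V)),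
  w₁.IsCycle → w₂.IsCycle → w₁.length ≤ 12 → w₂.length ≤ 12 →
  (∀ z ∈ w₁.support, (sk T).dist x z ≤ 6) → (∀ z ∈ w₂.support, (sk T).dist x' z ≤ 6) →
  Disc T D₁ (wed w₁) → Disc T D₂ (wed w₂) →
  ∀ v, v ∈ vs D₁ → v ∉ w₁.support → v ∈ vs D₂ → v ∉ w₂.support → False

/-- PACKET EX2 (many far away points of the shortest cycle; may assume StmtAC, StmtSH; adapt
`Helper25/KC/EX`).
Proof.  As EX in GoalsC: for every vertex `h` and every `K` there are at most `4 K + 1` vertices of `w`
at distance at most `K` from `h`.  Choose `x 0, x 1, ..` one after the other: the vertices of `w` at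
distance `≤ K` from an element of `Z` or `≤ M` from one of the points chosen before are at most
`#Z (4 K + 1) + n (4 M + 1)`, less than the number `w.length` of vertices of `w`. -/
def StmtEX2 : Prop := ∀ (V : Type) [Fintype V] (T : Finset (Finset V)), Surf T →
  ∀ (x₀ : V) (w : (sk T).Walk x₀ x₀), Shortest T w → ∀ (Z : Finset V) (n K M : ℕ),
  Z.card * (4 * K + 1) + n * (4 * M + 1) < w.length →
  ∃ x : Fin n → V, (∀ j, x j ∈ w.support) ∧ (∀ j k, j ≠ k → M < (sk T).dist (x j) (x k)) ∧
    ∀ j, ∀ h ∈ Z, K < (sk T).dist (x j) h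

/-- PACKET NH (numbers; may assume StmtCN).
Proof.  CN for `W = univ`: `0 = 6 chi + ∑ (dg - 6)`, so `∑ (dg - 6)⁺ = -6 chi + ∑ (6 - dg)⁺ ≤ 6 N + t`; every
hub contributes at least 1 to the first sum, every vertex of degree at most 5 contributes at least 1
to the second, which is at most `t`. -/
def StmtNH : Prop := ∀ (V : Type) [Fintype V] (T : Finset (Finset V)) (N t : ℕ), Surf T →
  -(N : ℤ) ≤ chi T → ∑ v : V, (6 - dg T v) ≤ t →
  (univ.filter (fun v => 7 ≤ dg T v)).card ≤ 6 * N + t ∧
  (univ.filter (fun v => dg T v ≠ 6)).card ≤ 6 * N + 2 * t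

/-- PACKET HM (few hubs).
Proof.  If `b` is reachable from `a ≠ b` in `HG T`, take a path (`toPath`); its vertices are different
hubs, so it has at most `m - 1` steps, and each step is a distance of at most 2 in `sk T` (connected). -/
def StmtHM : Prop := ∀ (V : Type) [Fintype V] (T : Finset (Finset V)) (m : ℕ), Surf T →
  (univ.filter (fun v => 7 ≤ dg T v)).card ≤ m → HD T (2 * m)

/-- PACKET SZ (existence of the shortest cycle; may assume StmtCN2, StmtEV; compare
`Helper28/KC/MZ`).
Proof.  Take an even set `z ⊆ ed T` which does not bound with the least number of elements; by CN2 it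
contains a cycle `w` which does not bound, `#z ≤ #(wed w) = w.length`.  If `w.length < c`, `EW` gives a
disc with boundary `wed w`. -/
def StmtSZ : Prop := ∀ (V : Type) [Fintype V] (T : Finset (Finset V)) (c : ℕ), Surf T → EW T c →
  (∃ z ⊆ ed T, Even2 z ∧ ¬ Bounds T z) →
  ∃ (x : V) (w : (sk T).Walk x x), Shortest T w ∧ c ≤ w.length

/-- PACKET TT (boundedly many vertices of degree at most 5; may assume StmtTI, StmtIJ2, StmtDV,
StmtDS, StmtEX2, StmtNH, StmtHM, StmtSZ, StmtBR, StmtMEY).
Proof.  Let `m = 6 N + t`, `ρ = 2 m`, `K = 2 ρ + 20`,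
`c = (6 N + 2 t) (4 K + 1) + 161 (t + 2) + 2 ρ + 20`.  `EW` is monotone in `c`.  If all even sets
`z ⊆ ed T` bound, BR for `R = univ` gives `Mac (sk T)` (`rs G univ = G`) and MEY.  Otherwise SZ gives the
shortest cycle `w`, `c ≤ w.length`.  NH: `m` hubs, `HD T ρ` by HM; `Z` = the vertices of degree `≠ 6`.
EX2 (`n = t + 2`, `M = 40`) gives the points `x j`.  DV (`n = 6`): a development `f j` with
`f j (0, 0) = x j`.  For every `j`: `Patch (sk T) (f j)`, or the data of IJ2 with a vertex `v j`,
`dg T (v j) ≤ 5`.  By DS the `v j` are different for different `j` of the second kind, so there are at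
most `t` such `j` (`∑ (6 - dg) ≤ t`), and there are `j ≠ k` with `Patch (sk T) (f j)`, `Patch (sk T) (f k)`.
`f j p` is at distance at most `hn p` from `x j` (induction on `hn p` with `Dev.nb`), so the images of
the balls of radius 6 are disjoint (`40 > 12`).  TI with `l = 0`: all hubs are at distance
`> K ≥ 2 ρ + 4` from `x j` and `x k`. -/
def StmtTT : Prop := ∀ N t : ℕ, ∃ c : ℕ, ∀ (V : Type) [Fintype V] (T : Finset (Finset V)),
  Surf T → -(N : ℤ) ≤ chi T → ∑ v : V, (6 - dg T v) ≤ t → EW T c → AllEq (sk T)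

end Pool.Agent.Helper30.KC
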