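import Pool.Agent.Helper30.KC.FinI
import Pool.Agent.Helper30.KC.GoalsT
import Pool.Agent.Helper94.KC.TAP
import Pool.Agent.Helper96.KT.TT
import Pool.Agent.Helper86.KT.DS
import Pool.Agent.Helper32.KT.EX2
import Pool.Agent.Helper23.KT.NH
import Pool.Agent.Helper1.KT.SZ
import Pool.Agent.Helper77.KT.HM
import Pool.Agent.Helper14.KT.GB2
import Pool.Agent.Helper12.KT.IJ2
import Pool.Agent.Helper3.KC.L1
import Pool.Agent.Helper77.KC.CN
import Pool.Agent.Helper32.KC.DV
import Pool.Agent.Helper14.KC.ST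

/-!
# Project KT: assembly
-/

set_option autoImplicit false

namespace Pool.Agent.Helper30.KC

open Pool.Agent.Helper94.KC

theorem gb2 : StmtGB2 := Pool.Agent.Helper14.KT.pGB2 ev db
theorem ij2 : StmtIJ2 := Pool.Agent.Helper12.KT.pIJ2 gb2 Pool.Agent.Helper14.KC.st
theorem ds : StmtDS := Pool.Agent.Helper86.KT.pDS ar db ev
theorem ex2 : StmtEX2 := Pool.Agent.Helper32.KT.pEX2 sh
theorem nh : StmtNH := Pool.Agent.Helper23.KT.pNH Pool.Agent.Helper77.KC.cn
theorem hm : StmtHM := Pool.Agent.Helper77.KT.pHM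
theorem sz : StmtSZ := Pool.Agent.Helper1.KT.pSZ
theorem dv : StmtDV := Pool.Agent.Helper32.KC.dv Pool.Agent.Helper3.KC.l1

/-- hubs do not percolate -/
theorem tiT : StmtTI := ti_of_tap Pool.Agent.Helper94.KC.tap

/-- boundedly many vertices of degree at most 5 -/
theorem tt : StmtTT := Pool.Agent.Helper96.KT.pTT tiT ij2 dv ds ex2 nh hm sz
  Pool.Agent.Helper30.ML.br Pool.Agent.Helper30.ML.meyniel

end Pool.Agent.Helper30.KC
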